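import Mathlib
import Pool.Agent.W70.BA.Main

set_option autoImplicit false

/-!
# Spectral permanence does not imply being a cortex algebra

The example: continuous functions on the closed unit ball of `ℂ × ℝ` which are holomorphic on the
horizontal slices. Zeros escape to the unit sphere, all of whose points are peak points, so every
non-invertible element is a topological divisor of zero; the evaluation at the centre does not
extend to the continuous functions on the sphere.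
-/

namespace Pool.Agent.Results.MP_6331ea_an.SliceAlgebra

/-- `A` sits in `B`, through `j`, as a closed unital subalgebra with an equivalent norm -/
def ClosedEmbedding (A B : Type) [NormedCommRing A] [NormedAlgebra ℂ A] [NormedCommRing B]
    [NormedAlgebra ℂ B] (j : A →ₐ[ℂ] B) : Prop :=
  ∃ c C : ℝ, 0 < c ∧ ∀ x, c * ‖x‖ ≤ ‖j x‖ ∧ ‖j x‖ ≤ C * ‖x‖

/-- the spectral permanence property -/
def SpectralPermanence (A : Type) [NormedCommRing A] [NormedAlgebra ℂ A] : Prop :=
  ∀ (B : Type) [NormedCommRing B] [NormedAlgebra ℂ B] [CompleteSpace B] (j : A →ₐ[ℂ] B),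
    ClosedEmbedding A B j → ∀ x, spectrum ℂ (j x) = spectrum ℂ x

/-- the character `φ` extends to every Banach algebra in which `A` sits isometrically -/
def InCortex (A : Type) [NormedCommRing A] [NormedAlgebra ℂ A] (φ : A →ₐ[ℂ] ℂ) : Prop :=
  ∀ (B : Type) [NormedCommRing B] [NormedAlgebra ℂ B] [CompleteSpace B] (j : A →ₐ[ℂ] B),
    Isometry j → ∃ ψ : B →ₐ[ℂ] ℂ, ψ.comp j = φ

/-- cortex algebras -/
def IsCortexAlgebra (A : Type) [NormedCommRing A] [NormedAlgebra ℂ A] : Prop :=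
  ∀ φ : A →ₐ[ℂ] ℂ, InCortex A φ

/-- There is a unital commutative complex Banach algebra with the spectral permanence property
which is not a cortex algebra. -/
theorem result : ∃ (A : Type) (_ : NormedCommRing A) (_ : NormedAlgebra ℂ A) (_ : CompleteSpace A),
    SpectralPermanence A ∧ ¬ IsCortexAlgebra A ∧
    (∀ x : A, ¬ IsUnit x → ∀ ε : ℝ, 0 < ε → ∃ y : A, ‖y‖ = 1 ∧ ‖x * y‖ ≤ ε) ∧
    ∃ (φ : A →ₐ[ℂ] ℂ) (x₁ x₂ : A), φ x₁ = 0 ∧ φ x₂ = 0 ∧ ∀ y : A, ‖y‖ ≤ ‖x₁ * y‖ + ‖x₂ * y‖ := by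
  refine ⟨Pool.Agent.W70.BA.A, inferInstance, inferInstance, inferInstance, ?_, ?_,
    Pool.Agent.W70.BA.tdz, Pool.Agent.W70.BA.ev0, Pool.Agent.W70.BA.cz, Pool.Agent.W70.BA.cb,
    Pool.Agent.W70.BA.ev0_cz, Pool.Agent.W70.BA.ev0_cb, Pool.Agent.W70.BA.joint⟩
  · -- spectral permanence
    intro B _ _ _ j ⟨c, C, hc, hj⟩ x
    apply Set.Subset.antisymm (AlgHom.spectrum_apply_subset j x)
    intro z hz
    rw [spectrum.mem_iff] at hz ⊢
    intro hu
    apply absurd hu
    have e : algebraMap ℂ B z - j x = j (algebraMap ℂ Pool.Agent.W70.BA.A z - x) := by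
      rw [map_sub, AlgHom.commutes]
    rw [e]
    intro hunit
    obtain ⟨v, hv⟩ := hunit.exists_left_inv
    set f := algebraMap ℂ Pool.Agent.W70.BA.A z - x with hf
    obtain ⟨y, hy1, hy2⟩ := Pool.Agent.W70.BA.tdz f hz (c / (2 * (‖v‖ + 1) * (|C| + 1)))
      (by positivity)
    have h1 : j y = v * j (f * y) := by
      rw [map_mul, ← mul_assoc, hv, one_mul]
    have h2 : c ≤ ‖j y‖ := by
      have := (hj y).1
      rwa [hy1, mul_one] at this
    have h3 : ‖j (f * y)‖ ≤ |C| * ‖f * y‖ :=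
      (hj (f * y)).2.trans (mul_le_mul_of_nonneg_right (le_abs_self C) (norm_nonneg _))
    have h4 : ‖j y‖ ≤ ‖v‖ * (|C| * (c / (2 * (‖v‖ + 1) * (|C| + 1)))) := by
      rw [h1]
      refine (norm_mul_le _ _).trans ?_
      gcongr
      exact h3.trans (mul_le_mul_of_nonneg_left hy2 (abs_nonneg C))
    have h5 : ‖v‖ * (|C| * (c / (2 * (‖v‖ + 1) * (|C| + 1)))) ≤ c / 2 := by
      have hv0 : 0 ≤ ‖v‖ := norm_nonneg v
      have hC0 : 0 ≤ |C| := abs_nonneg C
      have e1 : ‖v‖ * (|C| * (c / (2 * (‖v‖ + 1) * (|C| + 1)))) =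
          (c / 2) * ((‖v‖ / (‖v‖ + 1)) * (|C| / (|C| + 1))) := by
        field_simp
      rw [e1]
      have e2 : ‖v‖ / (‖v‖ + 1) ≤ 1 := by rw [div_le_one (by positivity)]; linarith
      have e3 : |C| / (|C| + 1) ≤ 1 := by rw [div_le_one (by positivity)]; linarith
      have e4 : (‖v‖ / (‖v‖ + 1)) * (|C| / (|C| + 1)) ≤ 1 :=
        mul_le_one₀ e2 (by positivity) e3
      calc (c / 2) * ((‖v‖ / (‖v‖ + 1)) * (|C| / (|C| + 1))) ≤ (c / 2) * 1 := by gcongr
        _ = c / 2 := mul_one _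
    linarith
  · -- the evaluation at the centre does not extend
    intro h
    obtain ⟨ψ, hψ⟩ := h Pool.Agent.W70.BA.ev0 C(Pool.Agent.W70.BA.S, ℂ) Pool.Agent.W70.BA.res
      Pool.Agent.W70.BA.res_isometry
    exact Pool.Agent.W70.BA.ev0_not_ext ψ hψ

end Pool.Agent.Results.MP_6331ea_an.SliceAlgebra
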